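import Pool.Agent.Lib.MP_954a1f_al.Explicit

/-!
The Golod and Shafarevich type count without finiteness of the group, and the growth of balls.
-/

set_option autoImplicit false

namespace Pool.Agent.FS.EngelGrowth

open Function Module Pool.Agent.Lib.MP_954a1f_al

theorem comap_ge_fd {F A B : Type*} [Field F] [AddCommGroup A] [Module F A] [AddCommGroup B]
    [Module F B] [FiniteDimensional F A] (f : A →ₗ[F] B)
    (B1 B2 : Submodule F B) [FiniteDimensional F B2] (h12 : B1 ≤ B2) (hf : ∀ a, f a ∈ B2) :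
    finrank F A + finrank F B1 ≤ finrank F (B1.comap f) + finrank F B2 := by
  let g : A →ₗ[F] (B2 ⧸ B1.comap B2.subtype) :=
    (B1.comap B2.subtype).mkQ ∘ₗ f.codRestrict B2 hf
  have hker : LinearMap.ker g = B1.comap f := by
    ext a
    simp [g]
  have h1 := g.finrank_range_add_finrank_ker
  have h2 := (B1.comap B2.subtype).finrank_quotient_add_finrank
  have h3 : finrank F (B1.comap B2.subtype) = finrank F B1 :=
    (Submodule.comapSubtypeEquivOfLe h12).finrank_eq
  have h4 := (LinearMap.range g).finrank_le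
  rw [hker] at h1
  omega

theorem prod_fd {F A B : Type*} [Field F] [AddCommGroup A] [Module F A] [AddCommGroup B]
    [Module F B] (p : Submodule F A) (q : Submodule F B) [FiniteDimensional F p]
    [FiniteDimensional F q] :
    FiniteDimensional F (p.prod q) ∧ finrank F (p.prod q) ≤ finrank F p + finrank F q := by
  let j : p.prod q →ₗ[F] p × q :=
    (LinearMap.codRestrict p (LinearMap.fst F A B ∘ₗ (p.prod q).subtype) (fun a => a.2.1)).prod
      (LinearMap.codRestrict q (LinearMap.snd F A B ∘ₗ (p.prod q).subtype) (fun a => a.2.2))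
  have hj : Injective j := by
    intro a b hab
    apply Subtype.ext
    apply Prod.ext
    · exact congrArg (fun c : p × q => c.1.1) hab
    · exact congrArg (fun c : p × q => c.2.1) hab
  have := LinearMap.finrank_le_finrank_of_injective hj
  rw [Module.finrank_prod] at this
  exact ⟨FiniteDimensional.of_injective j hj, this⟩

variable {F : Type*} [Field F] {G : Type*} [Group G] {Ω : Type*}
variable {π : G →* Equiv.Perm Ω} {ω₀ : Ω}

theorem fixMod_fd (hfd : ∀ n, FiniteDimensional F (filt F π ω₀ n)) (y : G) (n : ℕ) :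
    FiniteDimensional F (fixMod F π ω₀ y n) := by
  have := hfd (n + 1)
  exact Submodule.finiteDimensional_of_le (S₂ := filt F π ω₀ (n + 1))
    fun f hf => (mem_fixMod.mp hf).1

theorem count_fix_fd [Fintype Ω] [DecidableEq Ω]
    (hfd : ∀ n, FiniteDimensional F (filt F π ω₀ n)) (y : G)
    (htr : ∀ ω ω' : Ω, ∃ i : ℕ, π (y ^ i) ω = ω') (n : ℕ) :
    Fintype.card Ω * finrank F (fixMod F π ω₀ y n) + finrank F (filt F π ω₀ n) ≤
      Fintype.card Ω * finrank F (filt F π ω₀ n) + finrank F (filt F π ω₀ (n + 1)) := by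
  have := hfd n
  have := hfd (n + 1)
  have := fixMod_fd hfd y n
  let Ψ : (Ω → fixMod F π ω₀ y n) →ₗ[F] (G → F) :=
    ∑ ω, ind F π ω₀ ω ∘ₗ (fixMod F π ω₀ y n).subtype ∘ₗ LinearMap.proj ω
  have hΨ : ∀ a, Ψ a = ∑ ω, ind F π ω₀ ω (a ω).1 := by
    intro a
    simp [Ψ, LinearMap.sum_apply]
  have h1 := comap_ge_fd Ψ (filt F π ω₀ n) (filt F π ω₀ (n + 1)) (filt_mono n) (by
    intro a
    rw [hΨ]
    exact Submodule.sum_mem _ fun ω _ => ind_mem ω (mem_fixMod.mp (a ω).2).1)
  have h2 : ∀ a ∈ (filt F π ω₀ n).comap Ψ, ∀ ω, (a ω).1 ∈ filt F π ω₀ n := by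
    intro a ha ω
    rw [Submodule.mem_comap, hΨ] at ha
    have h3 := ind_mem ω ha
    rw [ind_sum_ind] at h3
    refine mem_of_ind_mem ω (fun ω' => ?_) h3
    obtain ⟨i, hi⟩ := htr ω ω'
    exact ⟨y ^ i, Subgroup.pow_mem _ (mem_stabMod.mpr (mem_fixMod.mp (a ω).2).2) i, hi⟩
  let j : (filt F π ω₀ n).comap Ψ →ₗ[F] (Ω → filt F π ω₀ n) :=
    LinearMap.pi fun ω => LinearMap.codRestrict (filt F π ω₀ n)
      ((fixMod F π ω₀ y n).subtype ∘ₗ
        (LinearMap.proj ω : (Ω → fixMod F π ω₀ y n) →ₗ[F] fixMod F π ω₀ y n) ∘ₗ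
        ((filt F π ω₀ n).comap Ψ).subtype)
      (fun a => h2 a.1 a.2 ω)
  have hj : Injective j := by
    intro a b hab
    ext ω t
    have := congrArg (fun c : Ω → filt F π ω₀ n => (c ω).1 t) hab
    exact this
  have h4 := LinearMap.finrank_le_finrank_of_injective hj
  rw [Module.finrank_pi_fintype] at h1 h4
  simp only [Finset.sum_const, Finset.card_univ, smul_eq_mul] at h1 h4
  omega

theorem count_cocycles_fd [Fintype Ω] {x y : G} {q a b : ℕ}
    (hfd : ∀ n, FiniteDimensional F (filt F π ω₀ n))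
    (hgen : ∀ H : Subgroup G, x ∈ H → y ∈ H → ∀ g, g ∈ H)
    (htr : ∀ ω, ∃ g, π g ω₀ = ω) (hq : π (y ^ q) = 1)
    (hbij : Bijective (fun i : Fin q => (π (y ^ (i : ℕ)))⁻¹ ω₀))
    (hbx : ∀ m n : Ω → F, ∑ ω, m ω = 0 → ∑ ω, n ω = 0 →
      der (pr F (MonoidHom.id (Equiv.Perm Ω))) (π x) (π y) a (m, n) = m)
    (hby : ∀ m n : Ω → F, ∑ ω, m ω = 0 → ∑ ω, n ω = 0 →
      der (pr F (MonoidHom.id (Equiv.Perm Ω))) (π y) (π x) b (m, n) = m)
    (hpres : ∀ m n : G → F, der (reg F G) x y a (m, n) = m → der (reg F G) y x b (n, m) = n →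
      ∃ f : G → F, reg F G x f - f = m ∧ reg F G y f - f = n) (k : ℕ) :
    2 * finrank F (filt F π ω₀ (k + 1)) ≤
      finrank F (fixMod F π ω₀ y (k + 1)) + 2 * finrank F (fixMod F π ω₀ y k) := by
  have := hfd k
  have := hfd (k + 1)
  have := fixMod_fd hfd y k
  have := fixMod_fd hfd y (k + 1)
  have := (prod_fd (filt F π ω₀ k) (filt F π ω₀ k)).1
  let S : Submodule F (filt F π ω₀ (k + 1)) :=
    (filt F π ω₀ k).comap (nrm F y q ∘ₗ (filt F π ω₀ (k + 1)).subtype)
  have h1 : finrank F (filt F π ω₀ (k + 1)) + finrank F (filt F π ω₀ k) ≤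
      finrank F S + finrank F (fixMod F π ω₀ y k) :=
    comap_ge_fd (nrm F y q ∘ₗ (filt F π ω₀ (k + 1)).subtype) (filt F π ω₀ k)
      (fixMod F π ω₀ y k) (filt_le_fixMod y k) (fun f => nrm_mem_fixMod hq f.2)
  let ι : S →ₗ[F] (G → F) := (filt F π ω₀ (k + 1)).subtype ∘ₗ S.subtype
  let R : (G → F) × (G → F) →ₗ[F] (G → F) × (G → F) :=
    (der (reg F G) x y a - LinearMap.fst F _ _).prod
      (der (reg F G) y x b ∘ₗ (LinearEquiv.prodComm F _ _).toLinearMap - LinearMap.snd F _ _)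
  have hR : ∀ m n, R (m, n) = (der (reg F G) x y a (m, n) - m, der (reg F G) y x b (n, m) - n) :=
    fun _ _ => rfl
  let R' : S × S →ₗ[F] (G → F) × (G → F) := R ∘ₗ ι.prodMap ι
  have hR' : ∀ c : S × S, R' c ∈ (filt F π ω₀ k).prod (filt F π ω₀ k) := by
    rintro ⟨m, n⟩
    refine ⟨?_, ?_⟩
    · exact der_sub_mem htr hbij x y a hbx k _ _ m.1.2 n.1.2 m.2 n.2
    · exact der_sub_mem htr hbij y x b hby k _ _ n.1.2 m.1.2 n.2 m.2
  have h2 := comap_ge_fd (F := F) (A := S × S) (B := (G → F) × (G → F)) R' ⊥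
    ((filt F π ω₀ k).prod (filt F π ω₀ k)) bot_le hR'
  have h3 := (prod_fd (filt F π ω₀ k) (filt F π ω₀ k)).2
  let d : (G → F) →ₗ[F] (G → F) × (G → F) :=
    (reg F G x - LinearMap.id).prod (reg F G y - LinearMap.id)
  have h4 : ∀ c ∈ (⊥ : Submodule F ((G → F) × (G → F))).comap R',
      ι.prodMap ι c ∈ (fixMod F π ω₀ y (k + 1)).map d := by
    rintro ⟨m, n⟩ hc
    have hc' : R (m.1.1, n.1.1) = 0 := hc
    rw [hR, Prod.mk_eq_zero, sub_eq_zero, sub_eq_zero] at hc'
    obtain ⟨f, hfx, hfy⟩ := hpres _ _ hc'.1 hc'.2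
    have hx : x ∈ stabMod π ω₀ (k + 1) f := by
      rw [mem_stabMod, hfx]
      exact m.1.2
    have hy : y ∈ stabMod π ω₀ (k + 1) f := by
      rw [mem_stabMod, hfy]
      exact n.1.2
    refine ⟨f, mem_fixMod.mpr ⟨mem_succ_of_all _ _ fun g => hgen _ hx hy g, hy⟩, ?_⟩
    exact Prod.ext hfx hfy
  let j : (⊥ : Submodule F ((G → F) × (G → F))).comap R' →ₗ[F]
      (fixMod F π ω₀ y (k + 1)).map d :=
    LinearMap.codRestrict _ (ι.prodMap ι ∘ₗ Submodule.subtype _) (fun c => h4 c.1 c.2)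
  have hj : Injective j := by
    intro c c' hcc
    have e : ι.prodMap ι c.1 = ι.prodMap ι c'.1 := congrArg Subtype.val hcc
    apply Subtype.ext
    apply Prod.ext
    · exact Subtype.ext (Subtype.ext (congrArg Prod.fst e))
    · exact Subtype.ext (Subtype.ext (congrArg Prod.snd e))
  have h5 := LinearMap.finrank_le_finrank_of_injective hj
  have h6 := Submodule.finrank_map_le d (fixMod F π ω₀ y (k + 1))
  have h7 : finrank F (S × S) = finrank F S + finrank F S := finrank_prod_self (A := S)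
  rw [h7, finrank_bot] at h2
  omega

/-- The elements given by words of length at most `n`. -/
def ball (φ : FreeGroup Bool →* G) (n : ℕ) : Set G :=
  {g | ∃ w : List (Bool × Bool), w.length ≤ n ∧ φ (FreeGroup.mk w) = g}

theorem ball_finite (φ : FreeGroup Bool →* G) (n : ℕ) : (ball φ n).Finite := by
  refine ((List.finite_length_le (Bool × Bool) n).image fun w => φ (FreeGroup.mk w)).subset ?_
  rintro g ⟨w, hw, rfl⟩
  exact ⟨w, hw, rfl⟩

theorem ball_mono (φ : FreeGroup Bool →* G) {m n : ℕ} (h : m ≤ n) {g : G} (hg : g ∈ ball φ m) :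
    g ∈ ball φ n := by
  obtain ⟨w, hw, rfl⟩ := hg
  exact ⟨w, hw.trans h, rfl⟩

theorem ball_mul (φ : FreeGroup Bool →* G) {m n : ℕ} {g h : G} (hg : g ∈ ball φ m)
    (hh : h ∈ ball φ n) : g * h ∈ ball φ (m + n) := by
  obtain ⟨w, hw, rfl⟩ := hg
  obtain ⟨v, hv, rfl⟩ := hh
  exact ⟨w ++ v, by rw [List.length_append]; omega, by rw [← FreeGroup.mul_mk, map_mul]⟩

theorem ball_inv (φ : FreeGroup Bool →* G) {m : ℕ} {g : G} (hg : g ∈ ball φ m) :
    g⁻¹ ∈ ball φ m := by
  obtain ⟨w, hw, rfl⟩ := hg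
  exact ⟨FreeGroup.invRev w, by rwa [FreeGroup.invRev_length],
    by rw [← FreeGroup.inv_mk, map_inv]⟩

theorem ball_of (φ : FreeGroup Bool →* G) (s : Bool) : φ (FreeGroup.of s) ∈ ball φ 1 :=
  ⟨[(s, true)], le_rfl, rfl⟩

theorem ball_pow (φ : FreeGroup Bool →* G) (s : Bool) (i : ℕ) :
    φ (FreeGroup.of s) ^ i ∈ ball φ i := by
  induction i with
  | zero => exact ⟨[], le_rfl, by rw [pow_zero, ← FreeGroup.one_eq_mk, map_one]⟩
  | succ i ih => rw [pow_succ]; exact ball_mul φ ih (ball_of φ s)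

/-- A function of degree `< n + 1` is determined by its values on a ball. -/
theorem eq_zero_of_ball (φ : FreeGroup Bool →* G)
    (hgen : ∀ H : Subgroup G, φ (FreeGroup.of true) ∈ H → φ (FreeGroup.of false) ∈ H →
      ∀ g, g ∈ H)
    (r : Ω → G) (hr : ∀ ω, π (r ω) ω₀ = ω) (hr8 : ∀ ω, r ω ∈ ball φ 8) :
    ∀ (n : ℕ) (f : G → F), f ∈ filt F π ω₀ (n + 1) →
      (∀ g ∈ ball φ (17 * n + 8), f g = 0) → f = 0 := by
  have hst : ∀ (s : G) (ω : Ω), π ((r (π s ω))⁻¹ * s * r ω) ω₀ = ω₀ := by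
    intro s ω
    rw [map_mul, map_mul, map_inv, Equiv.Perm.mul_apply, Equiv.Perm.mul_apply, hr,
      Equiv.Perm.inv_eq_iff_eq, hr]
  have hb : ∀ (s : Bool) (ω : Ω),
      (r (π (φ (FreeGroup.of s)) ω))⁻¹ * φ (FreeGroup.of s) * r ω ∈ ball φ 17 := fun s ω =>
    ball_mul φ (ball_mul φ (ball_inv φ (hr8 _)) (ball_of φ s)) (hr8 ω)
  have key : ∀ f : G → F, (∀ ω, f (r ω) = 0) →
      (∀ (s : Bool) (ω : Ω),
        dif F ((r (π (φ (FreeGroup.of s)) ω))⁻¹ * φ (FreeGroup.of s) * r ω) f = 0) → f = 0 := by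
    intro f h0 h1
    let K : Subgroup G :=
      { carrier := {k | ∀ t, f (t * k) = f t}
        one_mem' := fun t => by rw [mul_one]
        mul_mem' := fun {a b} ha hb t => by rw [← mul_assoc, hb, ha]
        inv_mem' := fun {a} ha t => by rw [← ha (t * a⁻¹), inv_mul_cancel_right] }
    let H : Subgroup G :=
      { carrier := {g | ∀ ω, (r (π g ω))⁻¹ * g * r ω ∈ K}
        one_mem' := fun ω => by
          rw [map_one, Equiv.Perm.one_apply, mul_one, inv_mul_cancel]
          exact K.one_mem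
        mul_mem' := fun {a b} ha hb ω => by
          have := K.mul_mem (ha (π b ω)) (hb ω)
          rw [map_mul, Equiv.Perm.mul_apply]
          convert this using 1
          group
        inv_mem' := fun {a} ha ω => by
          have := K.inv_mem (ha (π a⁻¹ ω))
          rw [← Equiv.Perm.mul_apply, ← map_mul, mul_inv_cancel, map_one,
            Equiv.Perm.one_apply] at this
          convert this using 1
          group }
    have hs : ∀ s : Bool, φ (FreeGroup.of s) ∈ H := fun s ω t => by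
      have := congrFun (h1 s ω) t
      rwa [dif_apply, Pi.zero_apply, sub_eq_zero] at this
    ext t
    have h2 := hgen H (hs true) (hs false) (t * (r ω₀)⁻¹) ω₀ (r (π (t * (r ω₀)⁻¹) ω₀))
    rw [h0] at h2
    rw [Pi.zero_apply, ← h2]
    congr 1
    group
  intro n
  induction n with
  | zero =>
    intro f hf h0
    refine key f (fun ω => h0 _ (hr8 ω)) fun s ω => ?_
    exact mem_filt_zero.mp (mem_filt_succ.mp hf _ (hst _ ω))
  | succ n ih =>
    intro f hf h0
    refine key f (fun ω => h0 _ (ball_mono φ (by omega) (hr8 ω))) fun s ω => ?_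
    refine ih _ (mem_filt_succ.mp hf _ (hst _ ω)) fun g hg => ?_
    rw [dif_apply, h0 g (ball_mono φ (by omega) hg),
      h0 _ (ball_mono φ (by omega) (ball_mul φ hg (hb s ω))), sub_zero]

theorem filt_le_ball (φ : FreeGroup Bool →* G)
    (hgen : ∀ H : Subgroup G, φ (FreeGroup.of true) ∈ H → φ (FreeGroup.of false) ∈ H →
      ∀ g, g ∈ H)
    (r : Ω → G) (hr : ∀ ω, π (r ω) ω₀ = ω) (hr8 : ∀ ω, r ω ∈ ball φ 8) (n : ℕ) :
    FiniteDimensional F (filt F π ω₀ (n + 1)) ∧
      finrank F (filt F π ω₀ (n + 1)) ≤ (ball φ (17 * n + 8)).ncard := by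
  have : Fintype (ball φ (17 * n + 8)) := (ball_finite φ _).fintype
  let j : filt F π ω₀ (n + 1) →ₗ[F] (ball φ (17 * n + 8) → F) :=
    LinearMap.funLeft F F Subtype.val ∘ₗ (filt F π ω₀ (n + 1)).subtype
  have hj : Injective j := by
    rw [injective_iff_map_eq_zero]
    intro f hf
    exact Subtype.ext (eq_zero_of_ball φ hgen r hr hr8 n f.1 f.2 fun g hg => congrFun hf ⟨g, hg⟩)
  have h := LinearMap.finrank_le_finrank_of_injective hj
  rw [Module.finrank_fintype_fun_eq_card, ← Nat.card_eq_fintype_card, Nat.card_coe_set_eq] at h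
  exact ⟨FiniteDimensional.of_injective j hj, h⟩

theorem growth [Fintype Ω] [DecidableEq Ω] (φ : FreeGroup Bool →* G) {x y : G} {a b : ℕ}
    (hx : φ (FreeGroup.of true) = x) (hy : φ (FreeGroup.of false) = y)
    (hcard : Fintype.card Ω = 9)
    (hgen : ∀ H : Subgroup G, x ∈ H → y ∈ H → ∀ g, g ∈ H)
    (htr9 : ∀ ω ω' : Ω, ∃ i : Fin 9, π (y ^ (i : ℕ)) ω = ω') (hq : π (y ^ 9) = 1)
    (hbij : Bijective (fun i : Fin 9 => (π (y ^ (i : ℕ)))⁻¹ ω₀))
    (hbx : ∀ m n : Ω → F, ∑ ω, m ω = 0 → ∑ ω, n ω = 0 →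
      der (pr F (MonoidHom.id (Equiv.Perm Ω))) (π x) (π y) a (m, n) = m)
    (hby : ∀ m n : Ω → F, ∑ ω, m ω = 0 → ∑ ω, n ω = 0 →
      der (pr F (MonoidHom.id (Equiv.Perm Ω))) (π y) (π x) b (m, n) = m)
    (hpres : ∀ m n : G → F, der (reg F G) x y a (m, n) = m → der (reg F G) y x b (n, m) = n →
      ∃ f : G → F, reg F G x f - f = m ∧ reg F G y f - f = n) (m : ℕ) :
    4 ^ m ≤ (ball φ (17 * m + 8)).ncard := by
  have htr : ∀ ω ω' : Ω, ∃ i : ℕ, π (y ^ i) ω = ω' := fun ω ω' =>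
    (htr9 ω ω').elim fun i hi => ⟨i, hi⟩
  have htr' : ∀ ω, ∃ g, π g ω₀ = ω := fun ω => (htr ω₀ ω).elim fun i hi => ⟨_, hi⟩
  choose i hi using htr9 ω₀
  have hball := filt_le_ball (F := F) (π := π) (ω₀ := ω₀) φ (by rw [hx, hy]; exact hgen)
    (fun ω => y ^ (i ω : ℕ)) hi fun ω => by
      rw [← hy]
      exact ball_mono φ (Nat.lt_succ_iff.mp (i ω).2) (ball_pow φ false _)
  have hfd : ∀ n, FiniteDimensional F (filt F π ω₀ n) := by
    intro n
    cases n with
    | zero => exact finiteDimensional_bot F _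
    | succ n => exact (hball n).1
  have hA := fun k => count_fix_fd (F := F) (π := π) (ω₀ := ω₀) hfd y htr k
  have hB := count_cocycles_fd hfd hgen htr' hq hbij hbx hby hpres
  rw [hcard] at hA
  have h0 : finrank F (filt F π ω₀ 0) = 0 := finrank_bot F _
  have h1 : 0 < finrank F (filt F π ω₀ 1) := by
    have := hfd 1
    rw [Module.finrank_pos_iff_exists_ne_zero]
    refine ⟨⟨fun _ => 1, ?_⟩, ?_⟩
    · rw [mem_filt_succ]
      intro h _
      rw [mem_filt_zero]
      ext t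
      simp [dif_apply]
    · intro h
      have := congrFun (congrArg Subtype.val h) 1
      simp at this
  have hgrow : ∀ k, 4 * finrank F (filt F π ω₀ k) + 1 ≤ finrank F (filt F π ω₀ (k + 1)) := by
    intro k
    induction k with
    | zero => rw [h0]; exact h1
    | succ k ih =>
      have e1 := hA k
      have e2 := hA (k + 1)
      have e3 := hB k
      omega
  have hexp : ∀ k, 4 ^ k ≤ finrank F (filt F π ω₀ (k + 1)) := by
    intro k
    induction k with
    | zero => exact h1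
    | succ k ih =>
      have := hgrow (k + 1)
      rw [pow_succ]
      omega
  exact (hexp m).trans (hball m).2

theorem growth_of (a b : ℕ) (hxa : (eng yp)^[a] xp = xp) (hyb : (eng xp)^[b] yp = yp)
    (hda : ∀ m n : Fin 9 → ZMod 2, ∑ ω, m ω = 0 → ∑ ω, n ω = 0 → der rho9 xp yp a (m, n) = m)
    (hdb : ∀ m n : Fin 9 → ZMod 2, ∑ ω, m ω = 0 → ∑ ω, n ω = 0 → der rho9 yp xp b (m, n) = m)
    (φ : FreeGroup Bool →* PresentedGroup (rels a b))
    (hx : φ (FreeGroup.of true) = PresentedGroup.of 0)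
    (hy : φ (FreeGroup.of false) = PresentedGroup.of 1) (m : ℕ) :
    4 ^ m ≤ (ball φ (17 * m + 8)).ncard := by
  let π : PresentedGroup (rels a b) →* Equiv.Perm (Fin 9) :=
    PresentedGroup.toGroup (lift_rels hxa hyb)
  have h0 : π (PresentedGroup.of 0) = xp := PresentedGroup.toGroup.of _
  have h1 : π (PresentedGroup.of 1) = yp := PresentedGroup.toGroup.of _
  refine growth (F := ZMod 2) (π := π) (ω₀ := 0) (a := a) (b := b) φ hx hy
    (Fintype.card_fin 9) ?_ ?_ ?_ ?_ ?_ ?_ (coboundary a b) m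
  · intro H hx hy g
    refine PresentedGroup.generated_by _ H (fun j => ?_) g
    fin_cases j
    · exact hx
    · exact hy
  · intro ω ω'
    obtain ⟨i, hi⟩ := yp_trans ω ω'
    exact ⟨i, by rw [map_pow, h1, hi]⟩
  · rw [map_pow, h1, yp_pow]
  · simp only [map_pow, h1]
    exact yp_bij
  · intro m n hm hn
    rw [h0, h1]
    exact hda m n hm hn
  · intro m n hm hn
    rw [h0, h1]
    exact hdb m n hm hn

theorem growth_180 : ∀ φ : FreeGroup Bool →* PresentedGroup (rels 180 180),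
    φ (FreeGroup.of true) = PresentedGroup.of 0 → φ (FreeGroup.of false) = PresentedGroup.of 1 →
    ∀ m : ℕ, 4 ^ m ≤ (ball φ (17 * m + 8)).ncard :=
  growth_of 180 180 xp_180 yp_180
    (der_eq_of_run xp yp zs rfl zs_step 180 run_x1 run_x2)
    (der_eq_of_run yp xp ws rfl ws_step 180 run_y1 run_y2)

theorem ball_map {G' : Type*} [Group G'] (φ : FreeGroup Bool →* G) (ψ : G →* G') (n : ℕ) :
    (ball (ψ.comp φ) n).ncard ≤ (ball φ n).ncard := by
  have : ball (ψ.comp φ) n = ψ '' ball φ n := by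
    ext g
    constructor
    · rintro ⟨w, hw, rfl⟩
      exact ⟨_, ⟨w, hw, rfl⟩, rfl⟩
    · rintro ⟨_, ⟨w, hw, rfl⟩, rfl⟩
      exact ⟨w, hw, rfl⟩
  rw [this]
  exact Set.ncard_image_le (ball_finite φ n)

end Pool.Agent.FS.EngelGrowth
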