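import Pool.Agent.FS.EngelGrowth.Main

/-!
Finite quotients of unbounded order.
-/

set_option autoImplicit false

namespace Pool.Agent.FS.EngelGrowth

open Function Module Pool.Agent.Lib.MP_954a1f_al

variable {F : Type*} [Field F] {G : Type*} [Group G]

/-- A finite-dimensional invariant space of functions over a finite field factors through a
finite quotient whose order is at least its dimension. -/
theorem quot_of_invariant [Finite F] (U : Submodule F (G → F)) [FiniteDimensional F U]
    (hU : ∀ g, ∀ f ∈ U, reg F G g f ∈ U) :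
    ∃ N : Subgroup G, N.Normal ∧ N.FiniteIndex ∧ finrank F U ≤ N.index := by
  have hfin : Finite U := Module.finite_of_finite F
  let ρ : G →* Function.End U :=
    { toFun := fun g f => ⟨reg F G g f.1, hU g f.1 f.2⟩
      map_one' := by
        funext f
        apply Subtype.ext
        ext t
        change reg F G 1 f.1 t = f.1 t
        rw [reg_apply, inv_one, one_mul]
      map_mul' := fun g h => by
        funext f
        apply Subtype.ext
        ext t
        change reg F G (g * h) f.1 t = reg F G g (reg F G h f.1) t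
        rw [reg_apply, reg_apply, reg_apply, mul_inv_rev, mul_assoc] }
  have hE : Finite (Function.End U) := inferInstanceAs (Finite (U → U))
  let σ : G →* (Function.End U)ˣ := ρ.toHomUnits
  have hN : σ.ker.FiniteIndex := Subgroup.finiteIndex_ker σ
  refine ⟨σ.ker, inferInstance, hN, ?_⟩
  have hinv : ∀ k ∈ σ.ker, ∀ (f : U) (t : G), f.1 (k⁻¹ * t) = f.1 t := by
    intro k hk f t
    have h1 : ρ k = 1 := by
      have := congrArg Units.val (MonoidHom.mem_ker.mp hk)
      exact this
    exact congrFun (congrArg Subtype.val (congrFun h1 f)) t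
  have : Fintype (G ⧸ σ.ker) := Fintype.ofFinite _
  let j : U →ₗ[F] (G ⧸ σ.ker → F) :=
    LinearMap.funLeft F F (fun q : G ⧸ σ.ker => q.out) ∘ₗ U.subtype
  have hj : Injective j := by
    rw [injective_iff_map_eq_zero]
    intro f hf
    apply Subtype.ext
    ext t
    have h0 : f.1 (QuotientGroup.mk t : G ⧸ σ.ker).out = 0 := congrFun hf _
    obtain ⟨k, hk⟩ := QuotientGroup.mk_out_eq_mul σ.ker t
    have hk' : t * k * t⁻¹ ∈ σ.ker := (inferInstance : σ.ker.Normal).conj_mem _ k.2 t
    have h2 := hinv _ (σ.ker.inv_mem hk') f t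
    rw [inv_inv, inv_mul_cancel_right, ← hk, h0] at h2
    exact h2.symm
  have h := LinearMap.finrank_le_finrank_of_injective hj
  rwa [Module.finrank_fintype_fun_eq_card, ← Nat.card_eq_fintype_card,
    ← Subgroup.index_eq_card] at h

theorem quot_growth [Finite F] {Ω : Type*} {π : G →* Equiv.Perm Ω} {ω₀ : Ω} [Fintype Ω]
    [DecidableEq Ω] (φ : FreeGroup Bool →* G) {x y : G} {a b : ℕ}
    (hx : φ (FreeGroup.of true) = x) (hy : φ (FreeGroup.of false) = y)
    (hcard : Fintype.card Ω = 9)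
    (hgen : ∀ H : Subgroup G, x ∈ H → y ∈ H → ∀ g, g ∈ H)
    (htr9 : ∀ ω ω' : Ω, ∃ i : Fin 9, π (y ^ (i : ℕ)) ω = ω') (hq : π (y ^ 9) = 1)
    (hbij : Bijective (fun i : Fin 9 => (π (y ^ (i : ℕ)))⁻¹ ω₀))
    (hbx : ∀ m n : Ω → F, ∑ ω, m ω = 0 → ∑ ω, n ω = 0 →
      der (pr F (MonoidHom.id (Equiv.Perm Ω))) (π x) (π y) a (m, n) = m)
    (hby : ∀ m n : Ω → F, ∑ ω, m ω = 0 → ∑ ω, n ω = 0 →
      der (pr F (MonoidHom.id (Equiv.Perm Ω))) (π y) (π x) b (m, n) = m)
    (hpres : ∀ m n : G → F, der (reg F G) x y a (m, n) = m → der (reg F G) y x b (n, m) = n →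
      ∃ f : G → F, reg F G x f - f = m ∧ reg F G y f - f = n) (m : ℕ) :
    ∃ N : Subgroup G, N.Normal ∧ N.FiniteIndex ∧ 4 ^ m ≤ N.index := by
  have htr : ∀ ω ω' : Ω, ∃ i : ℕ, π (y ^ i) ω = ω' := fun ω ω' =>
    (htr9 ω ω').elim fun i hi => ⟨i, hi⟩
  have htr' : ∀ ω, ∃ g, π g ω₀ = ω := fun ω => (htr ω₀ ω).elim fun i hi => ⟨_, hi⟩
  choose i hi using htr9 ω₀
  have hball := filt_le_ball (F := F) (π := π) (ω₀ := ω₀) φ (by rw [hx, hy]; exact hgen)
    (fun ω => y ^ (i ω : ℕ)) hi fun ω => by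
      rw [← hy]
      exact ball_mono φ (Nat.lt_succ_iff.mp (i ω).2) (ball_pow φ false _)
  have hfd : ∀ n, FiniteDimensional F (filt F π ω₀ n) := by
    intro n
    cases n with
    | zero => exact finiteDimensional_bot F _
    | succ n => exact (hball n).1
  have hA := fun k => count_fix_fd (F := F) (π := π) (ω₀ := ω₀) hfd y htr k
  have hB := count_cocycles_fd hfd hgen htr' hq hbij hbx hby hpres
  rw [hcard] at hA
  have h0 : finrank F (filt F π ω₀ 0) = 0 := finrank_bot F _
  have h1 : 0 < finrank F (filt F π ω₀ 1) := by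
    have := hfd 1
    rw [Module.finrank_pos_iff_exists_ne_zero]
    refine ⟨⟨fun _ => 1, ?_⟩, ?_⟩
    · rw [mem_filt_succ]
      intro h _
      rw [mem_filt_zero]
      ext t
      simp [dif_apply]
    · intro h
      have := congrFun (congrArg Subtype.val h) 1
      simp at this
  have hgrow : ∀ k, 4 * finrank F (filt F π ω₀ k) + 1 ≤ finrank F (filt F π ω₀ (k + 1)) := by
    intro k
    induction k with
    | zero => rw [h0]; exact h1
    | succ k ih =>
      have e1 := hA k
      have e2 := hA (k + 1)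
      have e3 := hB k
      omega
  have hexp : ∀ k, 4 ^ k ≤ finrank F (filt F π ω₀ (k + 1)) := by
    intro k
    induction k with
    | zero => exact h1
    | succ k ih =>
      have := hgrow (k + 1)
      rw [pow_succ]
      omega
  have := hfd (m + 1)
  obtain ⟨N, n1, n2, n3⟩ := quot_of_invariant (filt F π ω₀ (m + 1)) fun g f hf => reg_mem g hf
  exact ⟨N, n1, n2, (hexp m).trans n3⟩

theorem quot_of (a b : ℕ) (hxa : (eng yp)^[a] xp = xp) (hyb : (eng xp)^[b] yp = yp)
    (hda : ∀ m n : Fin 9 → ZMod 2, ∑ ω, m ω = 0 → ∑ ω, n ω = 0 → der rho9 xp yp a (m, n) = m)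
    (hdb : ∀ m n : Fin 9 → ZMod 2, ∑ ω, m ω = 0 → ∑ ω, n ω = 0 → der rho9 yp xp b (m, n) = m)
    (φ : FreeGroup Bool →* PresentedGroup (rels a b))
    (hx : φ (FreeGroup.of true) = PresentedGroup.of 0)
    (hy : φ (FreeGroup.of false) = PresentedGroup.of 1) (m : ℕ) :
    ∃ N : Subgroup (PresentedGroup (rels a b)), N.Normal ∧ N.FiniteIndex ∧ 4 ^ m ≤ N.index := by
  let π : PresentedGroup (rels a b) →* Equiv.Perm (Fin 9) :=
    PresentedGroup.toGroup (lift_rels hxa hyb)
  have h0 : π (PresentedGroup.of 0) = xp := PresentedGroup.toGroup.of _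
  have h1 : π (PresentedGroup.of 1) = yp := PresentedGroup.toGroup.of _
  refine quot_growth (F := ZMod 2) (π := π) (ω₀ := 0) (a := a) (b := b) φ hx hy
    (Fintype.card_fin 9) ?_ ?_ ?_ ?_ ?_ ?_ (coboundary a b) m
  · intro H hx hy g
    refine PresentedGroup.generated_by _ H (fun j => ?_) g
    fin_cases j
    · exact hx
    · exact hy
  · intro ω ω'
    obtain ⟨i, hi⟩ := yp_trans ω ω'
    exact ⟨i, by rw [map_pow, h1, hi]⟩
  · rw [map_pow, h1, yp_pow]
  · simp only [map_pow, h1]
    exact yp_bij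
  · intro m n hm hn
    rw [h0, h1]
    exact hda m n hm hn
  · intro m n hm hn
    rw [h0, h1]
    exact hdb m n hm hn

theorem quot_180 : ∀ φ : FreeGroup Bool →* PresentedGroup (rels 180 180),
    φ (FreeGroup.of true) = PresentedGroup.of 0 → φ (FreeGroup.of false) = PresentedGroup.of 1 →
    ∀ m : ℕ, ∃ N : Subgroup (PresentedGroup (rels 180 180)),
      N.Normal ∧ N.FiniteIndex ∧ 4 ^ m ≤ N.index :=
  quot_of 180 180 xp_180 yp_180
    (der_eq_of_run xp yp zs rfl zs_step 180 run_x1 run_x2)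
    (der_eq_of_run yp xp ws rfl ws_step 180 run_y1 run_y2)

end Pool.Agent.FS.EngelGrowth
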